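import Pool.Agent.KS6_77.RC.Transfer

/-!
# Rigid `((19 m + 2)_4)` configurations for every `m ≥ 1`

Start with the rigid `(21_4)` configuration with the points `(0,0), (±3,0), (0,±3), (±1,±1),
(±1,±2), (±2,±1)` and the points at infinity of slopes `±2, ±1/2`. Let `N` be the configuration
without the points `(0,0)`, `(1,1)` and without the lines `x + 2y + 3 = 0`, `x - 2y - 3 = 0`.
The piece `N` (19 points, 19 lines, 68 incidences) is still rigid; eight of its lines contain only
three points, and eight of its points are on only three lines. Requiring that the eight points of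
a projective image `X N` are, in a certain order, on the eight lines of `N` gives eight linear
equations for the matrix `X`, which determine it up to a factor: `X = H`. The chain
`N, H N, H² N, …, H^(m-1) N`, together with the two missing lines of the first piece and the two
missing points of the last piece, is a rigid `((19 m + 2)_4)` configuration. That there are no
further incidences follows from `H³ ≡ -258 H² (mod 83)` and, for the adjugate `A` of `H`, from
`A³ ≡ -3486 A² (mod 29)`.
-/

set_option autoImplicit false

namespace Pool.Agent.Results.MP_409c19_co.RigidChains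

/-- `ℝ³`: its one-dimensional subspaces are the points and its two-dimensional subspaces
are the lines of the real projective plane -/
abbrev E := Fin 3 → ℝ

/-- The subspaces `P i` (points) and `L j` (lines) of `ℝ³` are a geometric realization of the
incidence structure `I`: the `P i` are distinct points and the `L j` distinct lines of the real
projective plane, and point `i` lies on line `j` exactly when `I i j`. -/
structure IsRealization {n : ℕ} (I : Fin n → Fin n → Prop) (P L : Fin n → Submodule ℝ E) :
    Prop where
  point_dim : ∀ i, Module.finrank ℝ (P i) = 1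
  line_dim : ∀ j, Module.finrank ℝ (L j) = 2
  points_distinct : ∀ i i', P i = P i' → i = i'
  lines_distinct : ∀ j j', L j = L j' → j = j'
  incidence : ∀ i j, P i ≤ L j ↔ I i j

/-- every point is on exactly `k` lines and every line contains exactly `k` points: `I` is the
combinatorial type of an `(n_k)` configuration as soon as it has a realization -/
def IsRegular (k : ℕ) {n : ℕ} (I : Fin n → Fin n → Prop) : Prop :=
  (∀ i, {j | I i j}.ncard = k) ∧ ∀ j, {i | I i j}.ncard = k

/-- some projective transformation (induced by a linear automorphism of `ℝ³`) carries each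
point and line of the first realization to the corresponding one of the second -/
def ProjectivelyEquivalent {n : ℕ} (P L P' L' : Fin n → Submodule ℝ E) : Prop :=
  ∃ g : E ≃ₗ[ℝ] E, (∀ i, (P i).map (g : E →ₗ[ℝ] E) = P' i) ∧
    ∀ j, (L j).map (g : E →ₗ[ℝ] E) = L' j

/-- the combinatorial type `I` is realizable and all its geometric realizations form a single
projective equivalence class -/
def IsRigid {n : ℕ} (I : Fin n → Fin n → Prop) : Prop :=
  (∃ P L, IsRealization I P L) ∧
    ∀ P L P' L', IsRealization I P L → IsRealization I P' L' →
      ProjectivelyEquivalent P L P' L'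

/-- **For every `m ≥ 1` there is a rigid `((19 m + 2)_4)` configuration of points and lines in the
real projective plane.** In particular there are rigid `(n_4)` configurations for infinitely many
`n`. -/
theorem result : ∀ m : ℕ, 1 ≤ m → ∃ I : Fin (19 * m + 2) → Fin (19 * m + 2) → Prop,
    IsRegular 4 I ∧ IsRigid I := by
  intro m hm
  let e : Fin (19 * m + 2) ≃ Pool.Agent.KS6_77.RC.Idx m :=
    Fintype.equivOfCardEq (Pool.Agent.KS6_77.RC.card_idx m)
  refine ⟨Pool.Agent.KS6_77.RC.IncF m e, Pool.Agent.KS6_77.RC.regularF m hm e, ?_⟩
  obtain ⟨⟨P, L, h⟩, h2⟩ := Pool.Agent.KS6_77.RC.rigidF m hm e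
  have conv : ∀ P L, IsRealization (Pool.Agent.KS6_77.RC.IncF m e) P L →
      RigidConfiguration.IsRealization (Pool.Agent.KS6_77.RC.IncF m e) P L :=
    fun P L h => ⟨h.1, h.2, h.3, h.4, h.5⟩
  exact ⟨⟨P, L, ⟨h.1, h.2, h.3, h.4, h.5⟩⟩,
    fun P L P' L' h h' => h2 P L P' L' (conv P L h) (conv P' L' h')⟩

end Pool.Agent.Results.MP_409c19_co.RigidChains
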